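import Pool.Agent.Lib_helper87.Coh.Defs

/-!
# Coordinates of a representation
-/

namespace CohP1.O1

open Module

/-- coordinates of three linear maps -/
noncomputable def coordOf {V W U : Type} [AddCommGroup V] [AddCommGroup W] [AddCommGroup U]
    [Module ℂ V] [Module ℂ W] [Module ℂ U] {k w u : ℕ}
    (bV : Basis (Fin k) ℂ V) (bW : Basis (Fin w) ℂ W) (bU : Basis (Fin u) ℂ U)
    (f : V →ₗ[ℂ] W) (x y : U →ₗ[ℂ] W) : Idx k w u → ℂ
  | Sum.inl ij => LinearMap.toMatrix bV bW f ij.1 ij.2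
  | Sum.inr (Sum.inl ij) => LinearMap.toMatrix bU bW x ij.1 ij.2
  | Sum.inr (Sum.inr ij) => LinearMap.toMatrix bU bW y ij.1 ij.2

theorem toLin_apply {V W : Type} [AddCommGroup V] [AddCommGroup W]
    [Module ℂ V] [Module ℂ W] {k w : ℕ}
    (bV : Basis (Fin k) ℂ V) (bW : Basis (Fin w) ℂ W) (f : V →ₗ[ℂ] W) (v : V) :
    Matrix.toLin' (Matrix.of fun i j => LinearMap.toMatrix bV bW f i j) (bV.equivFun v)
      = bW.equivFun (f v) := by
  have : (Matrix.of fun i j => LinearMap.toMatrix bV bW f i j) = LinearMap.toMatrix bV bW f := rfl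
  rw [this, Matrix.toLin'_apply]
  exact LinearMap.toMatrix_mulVec_repr bV bW f v

theorem toLin_apply' {V W : Type} [AddCommGroup V] [AddCommGroup W]
    [Module ℂ V] [Module ℂ W] {k w : ℕ}
    (bV : Basis (Fin k) ℂ V) (bW : Basis (Fin w) ℂ W) (f : V →ₗ[ℂ] W) (a : Fin k → ℂ) :
    bW.equivFun.symm (Matrix.toLin' (Matrix.of fun i j => LinearMap.toMatrix bV bW f i j) a)
      = f (bV.equivFun.symm a) := by
  obtain ⟨v, rfl⟩ := bV.equivFun.surjective a
  rw [toLin_apply, LinearEquiv.symm_apply_apply, LinearEquiv.symm_apply_apply]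

/-- the representation of the coordinates is isomorphic to `M` -/
noncomputable def toCoord (M : QRep) {k w u : ℕ}
    (bV : Basis (Fin k) ℂ M.V) (bW : Basis (Fin w) ℂ M.W) (bU : Basis (Fin u) ℂ M.U) :
    Hom M (ofCoord (coordOf bV bW bU M.f M.x M.y)) where
  v := bV.equivFun.toLinearMap
  w := bW.equivFun.toLinearMap
  u := bU.equivFun.toLinearMap
  hf := LinearMap.ext fun a => (toLin_apply bV bW M.f a).symm
  hx := LinearMap.ext fun a => (toLin_apply bU bW M.x a).symm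
  hy := LinearMap.ext fun a => (toLin_apply bU bW M.y a).symm

/-- the inverse -/
noncomputable def fromCoord (M : QRep) {k w u : ℕ}
    (bV : Basis (Fin k) ℂ M.V) (bW : Basis (Fin w) ℂ M.W) (bU : Basis (Fin u) ℂ M.U) :
    Hom (ofCoord (coordOf bV bW bU M.f M.x M.y)) M where
  v := bV.equivFun.symm.toLinearMap
  w := bW.equivFun.symm.toLinearMap
  u := bU.equivFun.symm.toLinearMap
  hf := LinearMap.ext fun a => toLin_apply' bV bW M.f a
  hx := LinearMap.ext fun a => toLin_apply' bU bW M.x a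
  hy := LinearMap.ext fun a => toLin_apply' bU bW M.y a

theorem toCoord_inj (M : QRep) {k w u : ℕ}
    (bV : Basis (Fin k) ℂ M.V) (bW : Basis (Fin w) ℂ M.W) (bU : Basis (Fin u) ℂ M.U) :
    (toCoord M bV bW bU).Inj :=
  ⟨bV.equivFun.injective, bW.equivFun.injective, bU.equivFun.injective⟩

theorem fromCoord_inj (M : QRep) {k w u : ℕ}
    (bV : Basis (Fin k) ℂ M.V) (bW : Basis (Fin w) ℂ M.W) (bU : Basis (Fin u) ℂ M.U) :
    (fromCoord M bV bW bU).Inj :=
  ⟨bV.equivFun.symm.injective, bW.equivFun.symm.injective, bU.equivFun.symm.injective⟩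

theorem ty_coordOf (M : QRep) {k w u : ℕ}
    (bV : Basis (Fin k) ℂ M.V) (bW : Basis (Fin w) ℂ M.W) (bU : Basis (Fin u) ℂ M.U) :
    (ofCoord (coordOf bV bW bU M.f M.x M.y)).ty = M.ty := by
  rw [ty_ofCoord, QRep.ty, finrank_eq_card_basis bV, finrank_eq_card_basis bW,
    finrank_eq_card_basis bU]
  simp

theorem stable_coordOf {α : ℝ} {M : QRep} {k w u : ℕ}
    (bV : Basis (Fin k) ℂ M.V) (bW : Basis (Fin w) ℂ M.W) (bU : Basis (Fin u) ℂ M.U)
    (hM : Stable α M) : Stable α (ofCoord (coordOf bV bW bU M.f M.x M.y)) := by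
  constructor
  · rw [ty_coordOf]; exact hM.1
  · intro A i hi h0 h1
    rw [ty_coordOf] at h1 ⊢
    exact hM.2 A ((fromCoord M bV bW bU).comp i) ((fromCoord_inj M bV bW bU).comp hi) h0 h1

end CohP1.O1
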