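import Mathlib

/-!
# Density of algebraically independent points
-/

namespace CohP1.O1

open Topology

theorem exists_algInd_mem {ι : Type} [Finite ι] {U : Set (ι → ℂ)} (hU : IsOpen U)
    (hne : U.Nonempty) : ∃ p ∈ U, AlgebraicIndependent ℚ p := by
  classical
  have := Fintype.ofFinite ι
  have hc : Countable (MvPolynomial ι ℚ) := by
    rw [← Cardinal.mk_le_aleph0_iff]
    refine (MvPolynomial.cardinalMk_le_max).trans ?_
    refine max_le (max_le ?_ ?_) le_rfl
    · rw [Cardinal.mk_le_aleph0_iff]; infer_instance
    · rw [Cardinal.mk_le_aleph0_iff]; infer_instance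
  have : Countable {P : MvPolynomial ι ℚ // P ≠ 0} := Subtype.countable
  have hdense : Dense (⋂ P : {P : MvPolynomial ι ℚ // P ≠ 0},
      {p : ι → ℂ | MvPolynomial.aeval p P.1 ≠ 0}) := by
    refine dense_iInter_of_isOpen ?_ ?_
    · intro P
      have hcont : Continuous fun p : ι → ℂ => MvPolynomial.aeval p P.1 := by
        have : (fun p : ι → ℂ => MvPolynomial.aeval p P.1)
            = fun p => MvPolynomial.eval p (MvPolynomial.map (algebraMap ℚ ℂ) P.1) := by
          funext p
          rw [MvPolynomial.aeval_def, MvPolynomial.eval_map]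
        rw [this]
        exact MvPolynomial.continuous_eval _
      exact isOpen_ne_fun hcont continuous_const
    · intro P
      rw [dense_iff_inter_open]
      intro O hO hOne
      obtain ⟨x, hx⟩ := hOne
      rw [isOpen_pi_iff'] at hO
      obtain ⟨u, hu, hsub⟩ := hO x hx
      by_contra hcon
      apply P.2
      have hzero : MvPolynomial.map (algebraMap ℚ ℂ) P.1 = 0 := by
        refine MvPolynomial.funext_set (fun i => u i) (fun i => ?_) (fun y hy => ?_)
        · exact infinite_of_mem_nhds (x i) ((hu i).1.mem_nhds (hu i).2)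
        · rw [map_zero]
          by_contra hne0
          apply hcon
          refine ⟨y, hsub (fun i _ => hy i (Set.mem_univ i)), ?_⟩
          rw [Set.mem_ofPred_eq, MvPolynomial.aeval_def, ← MvPolynomial.eval_map]
          exact hne0
      have hinj := MvPolynomial.map_injective (σ := ι) (algebraMap ℚ ℂ) (algebraMap ℚ ℂ).injective
      exact hinj (by rw [hzero, map_zero])
  obtain ⟨p, hpU, hp⟩ := hdense.inter_open_nonempty U hU hne
  refine ⟨p, hpU, ?_⟩
  rw [algebraicIndependent_iff]
  intro P hP
  by_contra hP0
  have := Set.mem_iInter.mp hp ⟨P, hP0⟩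
  exact this hP

end CohP1.O1
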