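import Mathlib

/-!
# Graph subrepresentations near a direct sum
-/

namespace CohP1.O2

open Topology

section one

variable {E1 E2 F1 F2 : Type} [NormedAddCommGroup E1] [NormedSpace ℂ E1]
  [NormedAddCommGroup E2] [NormedSpace ℂ E2] [NormedAddCommGroup F1] [NormedSpace ℂ F1]
  [NormedAddCommGroup F2] [NormedSpace ℂ F2]

/-- the nilpotent endomorphism of `s` -/
noncomputable def Nil : (E1 →L[ℂ] E2) →L[ℂ] (E1 × E2 →L[ℂ] E1 × E2) :=
  (ContinuousLinearMap.compL ℂ (E1 × E2) E2 (E1 × E2) (ContinuousLinearMap.inr ℂ E1 E2)).comp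
    ((ContinuousLinearMap.compL ℂ (E1 × E2) E1 E2).flip (ContinuousLinearMap.fst ℂ E1 E2))

theorem Nil_apply (s : E1 →L[ℂ] E2) (v : E1 × E2) : Nil s v = (0, s v.1) := by
  simp [Nil]

/-- the projection killing the lower left block -/
noncomputable def Pr : (E1 × E2 →L[ℂ] F1 × F2) →L[ℂ] (E1 × E2 →L[ℂ] F1 × F2) :=
  ContinuousLinearMap.id ℂ _ -
  (ContinuousLinearMap.compL ℂ (E1 × E2) (F1 × F2) (F1 × F2)
    ((ContinuousLinearMap.inr ℂ F1 F2).comp (ContinuousLinearMap.snd ℂ F1 F2))).comp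
    ((ContinuousLinearMap.compL ℂ (E1 × E2) (E1 × E2) (F1 × F2)).flip
      ((ContinuousLinearMap.inl ℂ E1 E2).comp (ContinuousLinearMap.fst ℂ E1 E2)))

theorem Pr_apply (T : E1 × E2 →L[ℂ] F1 × F2) (v : E1 × E2) :
    Pr T v = T v - (0, (T (v.1, 0)).2) := by
  simp [Pr]

/-- conjugated upper triangular map -/
noncomputable def gmap (T : E1 × E2 →L[ℂ] F1 × F2) (s : E1 →L[ℂ] E2) (r : F1 →L[ℂ] F2) :
    E1 × E2 →L[ℂ] F1 × F2 :=
  (ContinuousLinearMap.id ℂ (F1 × F2) + Nil r).comp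
    ((Pr T).comp (ContinuousLinearMap.id ℂ (E1 × E2) - Nil s))

theorem gmap_apply (T : E1 × E2 →L[ℂ] F1 × F2) (s : E1 →L[ℂ] E2) (r : F1 →L[ℂ] F2)
    (v : E1 × E2) : gmap T s r v = Pr T (v - Nil s v) + Nil r (Pr T (v - Nil s v)) := rfl

theorem gmap_graph (T : E1 × E2 →L[ℂ] F1 × F2) (s : E1 →L[ℂ] E2) (r : F1 →L[ℂ] F2) (v : E1) :
    gmap T s r (v, s v) = ((T (v, 0)).1, r (T (v, 0)).1) := by
  have h1 : ((v, s v) : E1 × E2) - Nil s (v, s v) = (v, 0) := by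
    rw [Nil_apply]; simp
  have h2 : Pr T (v, 0) = ((T (v, 0)).1, 0) := by
    rw [Pr_apply]; ext <;> simp
  rw [gmap_apply, h1, h2, Nil_apply]
  simp

theorem Pr_prodMap (a : E1 →L[ℂ] F1) (d : E2 →L[ℂ] F2) : Pr (a.prodMap d) = a.prodMap d := by
  ext v <;> simp [Pr_apply]

theorem gmap_zero (a : E1 →L[ℂ] F1) (d : E2 →L[ℂ] F2) :
    gmap (a.prodMap d) 0 0 = a.prodMap d := by
  simp [gmap, Pr_prodMap]

theorem key_aux (sW : F1 →L[ℂ] F2) (a : E1 →L[ℂ] F1) (d : E2 →L[ℂ] F2)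
    (s : E1 →L[ℂ] E2) (R : E1 × E2 →L[ℂ] F1 × F2)
    (h : ∀ v, sW (a v) - d (s v) = (R (v, 0)).2) (v : E1 × E2) :
    Nil sW (a.prodMap d v) + Pr (R - (Nil sW).comp (a.prodMap d) + (a.prodMap d).comp (Nil s)) v
      - a.prodMap d (Nil s v) = R v := by
  have hz : ((R - (Nil sW).comp (a.prodMap d) + (a.prodMap d).comp (Nil s)) (v.1, 0)).2 = 0 := by
    show (R (v.1, 0) - Nil sW (a.prodMap d (v.1, 0)) + a.prodMap d (Nil s (v.1, 0))).2 = 0
    rw [Nil_apply, Nil_apply]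
    show (R (v.1, 0)).2 - sW (a v.1) + d (s v.1) = 0
    rw [← h]; abel
  have hz2 : ((0 : F1), ((R - (Nil sW).comp (a.prodMap d) + (a.prodMap d).comp (Nil s))
      (v.1, 0)).2) = (0 : F1 × F2) := by rw [hz]; rfl
  rw [Pr_apply, hz2, sub_zero]
  show Nil sW (a.prodMap d v) + (R v - Nil sW (a.prodMap d v) + a.prodMap d (Nil s v))
      - a.prodMap d (Nil s v) = R v
  abel

variable {X : Type} [NormedAddCommGroup X] [NormedSpace ℂ X]

/-- a product rule at a point where the factors are known -/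
theorem strict_comp {E F G : Type} [NormedAddCommGroup E] [NormedSpace ℂ E]
    [NormedAddCommGroup F] [NormedSpace ℂ F] [NormedAddCommGroup G] [NormedSpace ℂ G]
    {c : X → F →L[ℂ] G} {d : X → E →L[ℂ] F} {c' : X →L[ℂ] F →L[ℂ] G} {d' : X →L[ℂ] E →L[ℂ] F}
    {x0 : X} (hc : HasStrictFDerivAt c c' x0) (hd : HasStrictFDerivAt d d' x0) :
    ∃ D : X →L[ℂ] (E →L[ℂ] G), HasStrictFDerivAt (fun x => (c x).comp (d x)) D x0 ∧
      ∀ δ v, D δ v = c x0 (d' δ v) + c' δ (d x0 v) := by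
  refine ⟨_, hc.clm_comp hd, ?_⟩
  intro δ v
  rfl

theorem hasStrict_gmap (pT : X →L[ℂ] (E1 × E2 →L[ℂ] F1 × F2)) (ps : X →L[ℂ] (E1 →L[ℂ] E2))
    (pr : X →L[ℂ] (F1 →L[ℂ] F2)) (x0 : X) (a : E1 →L[ℂ] F1) (d : E2 →L[ℂ] F2)
    (hT : pT x0 = a.prodMap d) (hs : ps x0 = 0) (hr : pr x0 = 0) :
    ∃ D : X →L[ℂ] (E1 × E2 →L[ℂ] F1 × F2),
      HasStrictFDerivAt (fun x => gmap (pT x) (ps x) (pr x)) D x0 ∧
      ∀ δ v, D δ v = Nil (pr δ) (a.prodMap d v) + Pr (pT δ) v - a.prodMap d (Nil (ps δ) v) := by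
  have h1 : HasStrictFDerivAt (fun x => ContinuousLinearMap.id ℂ (F1 × F2) + Nil (pr x))
      (Nil.comp pr) x0 := ((Nil.comp pr).hasStrictFDerivAt).const_add _
  have h2 : HasStrictFDerivAt (fun x => Pr (pT x)) (Pr.comp pT) x0 := (Pr.comp pT).hasStrictFDerivAt
  have h3 : HasStrictFDerivAt (fun x => ContinuousLinearMap.id ℂ (E1 × E2) - Nil (ps x))
      (-(Nil.comp ps)) x0 := ((Nil.comp ps).hasStrictFDerivAt).const_sub _
  obtain ⟨D1, k1, e1⟩ := strict_comp h2 h3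
  obtain ⟨D2, k2, e2⟩ := strict_comp h1 k1
  refine ⟨D2, k2, ?_⟩
  intro δ v
  rw [e2, e1, hT, hs, hr, map_zero, map_zero, Pr_prodMap]
  simp only [add_zero, sub_zero, ContinuousLinearMap.coe_id', id_eq,
    ContinuousLinearMap.comp_apply, neg_apply, map_neg]
  abel

end one

section three

variable {VA VB WA WB UA UB : Type} [NormedAddCommGroup VA] [NormedSpace ℂ VA]
  [NormedAddCommGroup VB] [NormedSpace ℂ VB] [NormedAddCommGroup WA] [NormedSpace ℂ WA]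
  [NormedAddCommGroup WB] [NormedSpace ℂ WB] [NormedAddCommGroup UA] [NormedSpace ℂ UA]
  [NormedAddCommGroup UB] [NormedSpace ℂ UB]
  [CompleteSpace VA] [CompleteSpace VB] [CompleteSpace WA] [CompleteSpace WB]
  [CompleteSpace UA] [CompleteSpace UB]

/-- the space of representations on `VA × VB`, `WA × WB`, `UA × UB` -/
abbrev RepS (VA VB WA WB UA UB : Type) [NormedAddCommGroup VA] [NormedSpace ℂ VA]
  [NormedAddCommGroup VB] [NormedSpace ℂ VB] [NormedAddCommGroup WA] [NormedSpace ℂ WA]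
  [NormedAddCommGroup WB] [NormedSpace ℂ WB] [NormedAddCommGroup UA] [NormedSpace ℂ UA]
  [NormedAddCommGroup UB] [NormedSpace ℂ UB] : Type :=
  (VA × VB →L[ℂ] WA × WB) × (UA × UB →L[ℂ] WA × WB) × (UA × UB →L[ℂ] WA × WB)

/-- the parameter space -/
abbrev ParS (VA VB WA WB UA UB : Type) [NormedAddCommGroup VA] [NormedSpace ℂ VA]
  [NormedAddCommGroup VB] [NormedSpace ℂ VB] [NormedAddCommGroup WA] [NormedSpace ℂ WA]
  [NormedAddCommGroup WB] [NormedSpace ℂ WB] [NormedAddCommGroup UA] [NormedSpace ℂ UA]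
  [NormedAddCommGroup UB] [NormedSpace ℂ UB] : Type :=
  RepS VA VB WA WB UA UB × (VA →L[ℂ] VB) × (WA →L[ℂ] WB) × (UA →L[ℂ] UB)

theorem cs1 {A B C : Type} [NormedAddCommGroup A] [NormedAddCommGroup B] [NormedAddCommGroup C]
    [CompleteSpace A] [CompleteSpace B] [CompleteSpace C] : CompleteSpace (A × B × C) :=
  inferInstance

theorem cs2 {A B C D : Type} [NormedAddCommGroup A] [NormedAddCommGroup B] [NormedAddCommGroup C]
    [NormedAddCommGroup D] [CompleteSpace A] [CompleteSpace B] [CompleteSpace C]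
    [CompleteSpace D] : CompleteSpace (A × B × C × D) :=
  inferInstance

theorem csRep : CompleteSpace (RepS VA VB WA WB UA UB) := cs1

theorem csPar : CompleteSpace (ParS VA VB WA WB UA UB) := by
  have := csRep (VA := VA) (VB := VB) (WA := WA) (WB := WB) (UA := UA) (UB := UB)
  exact cs2

theorem graph_nhds (af : VA →L[ℂ] WA) (ax ay : UA →L[ℂ] WA) (df : VB →L[ℂ] WB)
    (dx dy : UB →L[ℂ] WB)
    (hext : ∀ (c1 : VA →L[ℂ] WB) (c2 c3 : UA →L[ℂ] WB),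
      ∃ (sV : VA →L[ℂ] VB) (sW : WA →L[ℂ] WB) (sU : UA →L[ℂ] UB),
        (∀ v, sW (af v) - df (sV v) = c1 v) ∧ (∀ v, sW (ax v) - dx (sU v) = c2 v) ∧
        (∀ v, sW (ay v) - dy (sU v) = c3 v)) :
    {P : RepS VA VB WA WB UA UB | ∃ (sV : VA →L[ℂ] VB) (sW : WA →L[ℂ] WB) (sU : UA →L[ℂ] UB)
      (g1 : VA →L[ℂ] WA) (g2 g3 : UA →L[ℂ] WA),
      (∀ v, P.1 (v, sV v) = (g1 v, sW (g1 v))) ∧ (∀ v, P.2.1 (v, sU v) = (g2 v, sW (g2 v))) ∧
      (∀ v, P.2.2 (v, sU v) = (g3 v, sW (g3 v)))} ∈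
      𝓝 ((af.prodMap df, ax.prodMap dx, ay.prodMap dy) : RepS VA VB WA WB UA UB) := by
  set x0 : ParS VA VB WA WB UA UB :=
    ((af.prodMap df, ax.prodMap dx, ay.prodMap dy), 0, 0, 0) with hx0
  let pf : ParS VA VB WA WB UA UB →L[ℂ] (VA × VB →L[ℂ] WA × WB) :=
    (ContinuousLinearMap.fst ℂ _ _).comp (ContinuousLinearMap.fst ℂ _ _)
  let px : ParS VA VB WA WB UA UB →L[ℂ] (UA × UB →L[ℂ] WA × WB) :=
    (ContinuousLinearMap.fst ℂ _ _).comp
      ((ContinuousLinearMap.snd ℂ _ _).comp (ContinuousLinearMap.fst ℂ _ _))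
  let py : ParS VA VB WA WB UA UB →L[ℂ] (UA × UB →L[ℂ] WA × WB) :=
    (ContinuousLinearMap.snd ℂ _ _).comp
      ((ContinuousLinearMap.snd ℂ _ _).comp (ContinuousLinearMap.fst ℂ _ _))
  let pV : ParS VA VB WA WB UA UB →L[ℂ] (VA →L[ℂ] VB) :=
    (ContinuousLinearMap.fst ℂ _ _).comp (ContinuousLinearMap.snd ℂ _ _)
  let pW : ParS VA VB WA WB UA UB →L[ℂ] (WA →L[ℂ] WB) :=
    (ContinuousLinearMap.fst ℂ _ _).comp
      ((ContinuousLinearMap.snd ℂ _ _).comp (ContinuousLinearMap.snd ℂ _ _))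
  let pU : ParS VA VB WA WB UA UB →L[ℂ] (UA →L[ℂ] UB) :=
    (ContinuousLinearMap.snd ℂ _ _).comp
      ((ContinuousLinearMap.snd ℂ _ _).comp (ContinuousLinearMap.snd ℂ _ _))
  obtain ⟨D1, k1, e1⟩ := hasStrict_gmap pf pV pW x0 af df rfl rfl rfl
  obtain ⟨D2, k2, e2⟩ := hasStrict_gmap px pU pW x0 ax dx rfl rfl rfl
  obtain ⟨D3, k3, e3⟩ := hasStrict_gmap py pU pW x0 ay dy rfl rfl rfl
  have k := k1.prodMk (k2.prodMk k3)
  have hsurj : ((D1.prod (D2.prod D3) : ParS VA VB WA WB UA UB →L[ℂ] RepS VA VB WA WB UA UB) :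
      ParS VA VB WA WB UA UB →ₗ[ℂ] RepS VA VB WA WB UA UB).range = ⊤ := by
    rw [LinearMap.range_eq_top]
    rintro ⟨R1, R2, R3⟩
    obtain ⟨sV, sW, sU, h1, h2, h3⟩ := hext
      ((ContinuousLinearMap.snd ℂ WA WB).comp (R1.comp (ContinuousLinearMap.inl ℂ VA VB)))
      ((ContinuousLinearMap.snd ℂ WA WB).comp (R2.comp (ContinuousLinearMap.inl ℂ UA UB)))
      ((ContinuousLinearMap.snd ℂ WA WB).comp (R3.comp (ContinuousLinearMap.inl ℂ UA UB)))
    refine ⟨((R1 - (Nil sW).comp (af.prodMap df) + (af.prodMap df).comp (Nil sV),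
      R2 - (Nil sW).comp (ax.prodMap dx) + (ax.prodMap dx).comp (Nil sU),
      R3 - (Nil sW).comp (ay.prodMap dy) + (ay.prodMap dy).comp (Nil sU)), sV, sW, sU), ?_⟩
    show (_, _, _) = (_, _, _)
    refine Prod.ext (ContinuousLinearMap.ext fun v => ?_)
      (Prod.ext (ContinuousLinearMap.ext fun v => ?_) (ContinuousLinearMap.ext fun v => ?_))
    · exact (e1 _ v).trans (key_aux sW af df sV R1 h1 v)
    · exact (e2 _ v).trans (key_aux sW ax dx sU R2 h2 v)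
    · exact (e3 _ v).trans (key_aux sW ay dy sU R3 h3 v)
  have := csRep (VA := VA) (VB := VB) (WA := WA) (WB := WB) (UA := UA) (UB := UB)
  have := csPar (VA := VA) (VB := VB) (WA := WA) (WB := WB) (UA := UA) (UB := UB)
  have hmap := k.map_nhds_eq_of_surj hsurj
  have hval : (gmap (pf x0) (pV x0) (pW x0), gmap (px x0) (pU x0) (pW x0),
      gmap (py x0) (pU x0) (pW x0)) =
      ((af.prodMap df, ax.prodMap dx, ay.prodMap dy) : RepS VA VB WA WB UA UB) := by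
    refine Prod.ext ?_ (Prod.ext ?_ ?_)
    · exact gmap_zero af df
    · exact gmap_zero ax dx
    · exact gmap_zero ay dy
  rw [← hval, ← hmap, Filter.mem_map]
  refine Filter.univ_mem' fun x => ?_
  refine ⟨pV x, pW x, pU x,
    (ContinuousLinearMap.fst ℂ WA WB).comp ((pf x).comp (ContinuousLinearMap.inl ℂ VA VB)),
    (ContinuousLinearMap.fst ℂ WA WB).comp ((px x).comp (ContinuousLinearMap.inl ℂ UA UB)),
    (ContinuousLinearMap.fst ℂ WA WB).comp ((py x).comp (ContinuousLinearMap.inl ℂ UA UB)),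
    fun v => gmap_graph _ _ _ v, fun v => gmap_graph _ _ _ v, fun v => gmap_graph _ _ _ v⟩

end three

end CohP1.O2
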