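import Pool.Agent.Lib_helper87.Coh.Defs
import Pool.Agent.Lib_helper34.Coh.Coord
import Pool.Agent.Lib_helper34.Coh.Dense

/-!
# Block O1: openness of stability
-/

namespace CohP1.O1

open Module Matrix

/-- orthonormal frames -/
def Frame (n a : ℕ) : Set (Matrix (Fin n) (Fin a) ℂ) := {f | fᴴ * f = 1}

theorem isClosed_frame (n a : ℕ) : IsClosed (Frame n a) := by
  unfold Frame
  refine isClosed_eq ?_ continuous_const
  exact (continuous_id.matrix_conjTranspose).matrix_mul continuous_id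

theorem norm_le_one_of_frame {n a : ℕ} {f : Matrix (Fin n) (Fin a) ℂ} (hf : f ∈ Frame n a)
    (i : Fin n) (j : Fin a) : ‖f i j‖ ≤ 1 := by
  have h : (fᴴ * f) j j = 1 := by
    rw [show fᴴ * f = 1 from hf, Matrix.one_apply_eq]
  rw [Matrix.mul_apply] at h
  have h2 : ∑ x, ((‖f x j‖ ^ 2 : ℝ) : ℂ) = 1 := by
    rw [← h]
    refine Finset.sum_congr rfl (fun x _ => ?_)
    rw [Matrix.conjTranspose_apply, RCLike.star_def, Complex.conj_mul']
    push_cast
    rfl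
  have h3 : ∑ x, ‖f x j‖ ^ 2 = 1 := by exact_mod_cast h2
  have h4 : ‖f i j‖ ^ 2 ≤ ∑ x, ‖f x j‖ ^ 2 :=
    Finset.single_le_sum (f := fun x => ‖f x j‖ ^ 2) (fun x _ => sq_nonneg _) (Finset.mem_univ i)
  rw [h3] at h4
  have h5 := norm_nonneg (f i j)
  nlinarith

theorem isCompact_frame (n a : ℕ) : IsCompact (Frame n a) := by
  have hK : IsCompact (Set.pi Set.univ (fun _ : Fin n =>
      Set.pi Set.univ (fun _ : Fin a => Metric.closedBall (0 : ℂ) 1))) :=
    isCompact_univ_pi (fun _ => isCompact_univ_pi (fun _ => isCompact_closedBall _ _))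
  refine IsCompact.of_isClosed_subset hK (isClosed_frame n a) ?_
  intro f hf i _ j _
  rw [mem_closedBall_zero_iff]
  exact norm_le_one_of_frame hf i j

theorem exists_frame {n a : ℕ} (S : Submodule ℂ (Fin n → ℂ)) (hS : finrank ℂ S = a) :
    ∃ f ∈ Frame n a, ∀ v, v ∈ S ↔ ∃ c, f *ᵥ c = v := by
  set e := WithLp.linearEquiv 2 ℂ (Fin n → ℂ) with he
  set S' : Submodule ℂ (EuclideanSpace ℂ (Fin n)) := S.comap e.toLinearMap with hS'
  have hfin : finrank ℂ S' = a := by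
    rw [← hS]
    have : S' = S.map (e.symm : (Fin n → ℂ) →ₗ[ℂ] EuclideanSpace ℂ (Fin n)) := by
      rw [hS', Submodule.map_equiv_eq_comap_symm]
      simp
    rw [this]
    exact LinearEquiv.finrank_map_eq e.symm S
  let b : OrthonormalBasis (Fin a) ℂ S' := (stdOrthonormalBasis ℂ S').reindex (finCongr hfin)
  refine ⟨Matrix.of fun i j => (b j : EuclideanSpace ℂ (Fin n)) i, ?_, ?_⟩
  · show _ = _
    ext j l
    rw [Matrix.mul_apply]
    have h1 : inner ℂ (b j) (b l) = if j = l then (1 : ℂ) else 0 :=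
      (orthonormal_iff_ite.mp b.orthonormal) j l
    rw [Submodule.coe_inner, PiLp.inner_apply] at h1
    rw [Matrix.one_apply, ← h1]
    refine Finset.sum_congr rfl (fun i _ => ?_)
    rw [Matrix.conjTranspose_apply, Matrix.of_apply, Matrix.of_apply, RCLike.inner_apply]
    rw [RCLike.star_def]
    ring
  · intro v
    have key : ∀ c : Fin a → ℂ, (Matrix.of fun i j => (b j : EuclideanSpace ℂ (Fin n)) i) *ᵥ c
        = e ((∑ j, c j • b j : S') : EuclideanSpace ℂ (Fin n)) := by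
      intro c
      funext i
      rw [Submodule.coe_sum, map_sum, Finset.sum_apply]
      simp only [Matrix.mulVec, dotProduct, Matrix.of_apply]
      refine Finset.sum_congr rfl (fun j _ => ?_)
      rw [Submodule.coe_smul, map_smul, Pi.smul_apply, smul_eq_mul, mul_comm]
      rfl
    constructor
    · intro hv
      have hv' : e.symm v ∈ S' := by
        rw [hS', Submodule.mem_comap]
        simpa using hv
      refine ⟨fun j => b.repr ⟨e.symm v, hv'⟩ j, ?_⟩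
      rw [key, b.sum_repr]
      simp
    · rintro ⟨c, rfl⟩
      rw [key]
      exact (∑ j, c j • b j : S').2


theorem proj_of_mem {n a m : ℕ} {f : Matrix (Fin n) (Fin a) ℂ} (hf : f ∈ Frame n a)
    {M : Matrix (Fin n) (Fin m) ℂ} (h : ∀ c, ∃ d, M *ᵥ c = f *ᵥ d) : M = f * (fᴴ * M) := by
  apply Matrix.toLin'.injective
  refine LinearMap.ext fun c => ?_
  rw [Matrix.toLin'_apply, Matrix.toLin'_apply]
  obtain ⟨d, hd⟩ := h c
  rw [← Matrix.mulVec_mulVec, ← Matrix.mulVec_mulVec, hd]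
  rw [Matrix.mulVec_mulVec (M := fᴴ), show fᴴ * f = 1 from hf, Matrix.one_mulVec]

theorem frame_inj {n a : ℕ} {f : Matrix (Fin n) (Fin a) ℂ} (hf : f ∈ Frame n a) :
    Function.Injective (Matrix.toLin' f) := by
  intro v v' h
  rw [Matrix.toLin'_apply, Matrix.toLin'_apply] at h
  have h2 := congrArg (fun z => fᴴ *ᵥ z) h
  simp only [Matrix.mulVec_mulVec] at h2
  rwa [show fᴴ * f = 1 from hf, Matrix.one_mulVec, Matrix.one_mulVec] at h2

abbrev mF {k w u : ℕ} (p : Idx k w u → ℂ) : Matrix (Fin w) (Fin k) ℂ :=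
  Matrix.of fun i j => p (Sum.inl (i, j))

abbrev mX {k w u : ℕ} (p : Idx k w u → ℂ) : Matrix (Fin w) (Fin u) ℂ :=
  Matrix.of fun i j => p (Sum.inr (Sum.inl (i, j)))

abbrev mY {k w u : ℕ} (p : Idx k w u → ℂ) : Matrix (Fin w) (Fin u) ℂ :=
  Matrix.of fun i j => p (Sum.inr (Sum.inr (i, j)))

/-- the points having a subrepresentation of a given type -/
def HasSub (k w u a b c : ℕ) : Set (Idx k w u → ℂ) :=
  {p | ∃ (A : QRep) (i : Hom A (ofCoord p)), i.Inj ∧ A.ty = ((a : ℤ), (b : ℤ), (c : ℤ))}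

/-- matrix form -/
def Good (k w u a b c : ℕ) : Set ((Idx k w u → ℂ) × (Frame k a × Frame w b × Frame u c)) :=
  {q | mF q.1 * q.2.1.1 = q.2.2.1.1 * (q.2.2.1.1ᴴ * (mF q.1 * q.2.1.1)) ∧
    mX q.1 * q.2.2.2.1 = q.2.2.1.1 * (q.2.2.1.1ᴴ * (mX q.1 * q.2.2.2.1)) ∧
    mY q.1 * q.2.2.2.1 = q.2.2.1.1 * (q.2.2.1.1ᴴ * (mY q.1 * q.2.2.2.1))}

theorem isClosed_good (k w u a b c : ℕ) : IsClosed (Good k w u a b c) := by
  have c1 : Continuous fun q : (Idx k w u → ℂ) × (Frame k a × Frame w b × Frame u c) => q.2.1.1 :=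
    continuous_subtype_val.comp (continuous_fst.comp continuous_snd)
  have c2 : Continuous fun q : (Idx k w u → ℂ) × (Frame k a × Frame w b × Frame u c) => q.2.2.1.1 :=
    continuous_subtype_val.comp (continuous_fst.comp (continuous_snd.comp continuous_snd))
  have c3 : Continuous fun q : (Idx k w u → ℂ) × (Frame k a × Frame w b × Frame u c) => q.2.2.2.1 :=
    continuous_subtype_val.comp (continuous_snd.comp (continuous_snd.comp continuous_snd))
  have cF : Continuous fun q : (Idx k w u → ℂ) × (Frame k a × Frame w b × Frame u c) => mF q.1 :=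
    continuous_matrix fun i j => (continuous_apply (Sum.inl (i, j))).comp continuous_fst
  have cX : Continuous fun q : (Idx k w u → ℂ) × (Frame k a × Frame w b × Frame u c) => mX q.1 :=
    continuous_matrix fun i j => (continuous_apply (Sum.inr (Sum.inl (i, j)))).comp continuous_fst
  have cY : Continuous fun q : (Idx k w u → ℂ) × (Frame k a × Frame w b × Frame u c) => mY q.1 :=
    continuous_matrix fun i j => (continuous_apply (Sum.inr (Sum.inr (i, j)))).comp continuous_fst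
  have e1 := isClosed_eq (cF.matrix_mul c1)
    (c2.matrix_mul ((c2.matrix_conjTranspose).matrix_mul (cF.matrix_mul c1)))
  have e2 := isClosed_eq (cX.matrix_mul c3)
    (c2.matrix_mul ((c2.matrix_conjTranspose).matrix_mul (cX.matrix_mul c3)))
  have e3 := isClosed_eq (cY.matrix_mul c3)
    (c2.matrix_mul ((c2.matrix_conjTranspose).matrix_mul (cY.matrix_mul c3)))
  exact e1.inter (e2.inter e3)

theorem hasSub_iff {k w u a b c : ℕ} (p : Idx k w u → ℂ) :
    p ∈ HasSub k w u a b c ↔ ∃ φ, (p, φ) ∈ Good k w u a b c := by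
  constructor
  · rintro ⟨A, i, hi, ht⟩
    have hty : finrank ℂ A.V = a ∧ finrank ℂ A.W = b ∧ finrank ℂ A.U = c := by
      simpa [QRep.ty] using ht
    obtain ⟨f1, h1, g1⟩ := exists_frame (n := k) (a := a) (LinearMap.range i.v)
      ((LinearMap.finrank_range_of_inj hi.1).trans hty.1)
    obtain ⟨f2, h2, g2⟩ := exists_frame (n := w) (a := b) (LinearMap.range i.w)
      ((LinearMap.finrank_range_of_inj hi.2.1).trans hty.2.1)
    obtain ⟨f3, h3, g3⟩ := exists_frame (n := u) (a := c) (LinearMap.range i.u)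
      ((LinearMap.finrank_range_of_inj hi.2.2).trans hty.2.2)
    refine ⟨(⟨f1, h1⟩, ⟨f2, h2⟩, ⟨f3, h3⟩), ?_, ?_, ?_⟩
    · refine proj_of_mem h2 (fun x => ?_)
      obtain ⟨v, hv⟩ := (g1 (f1 *ᵥ x)).mpr ⟨x, rfl⟩
      obtain ⟨d, hd⟩ := (g2 (i.w (A.f v))).mp ⟨_, rfl⟩
      refine ⟨d, ?_⟩
      have h4 : f2 *ᵥ d = mF p *ᵥ (f1 *ᵥ x) :=
        hd.trans ((i.hf' v).trans (congrArg (fun z => mF p *ᵥ z) hv))
      rw [h4, Matrix.mulVec_mulVec]
    · refine proj_of_mem h2 (fun x => ?_)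
      obtain ⟨v, hv⟩ := (g3 (f3 *ᵥ x)).mpr ⟨x, rfl⟩
      obtain ⟨d, hd⟩ := (g2 (i.w (A.x v))).mp ⟨_, rfl⟩
      refine ⟨d, ?_⟩
      have h4 : f2 *ᵥ d = mX p *ᵥ (f3 *ᵥ x) :=
        hd.trans ((i.hx' v).trans (congrArg (fun z => mX p *ᵥ z) hv))
      rw [h4, Matrix.mulVec_mulVec]
    · refine proj_of_mem h2 (fun x => ?_)
      obtain ⟨v, hv⟩ := (g3 (f3 *ᵥ x)).mpr ⟨x, rfl⟩
      obtain ⟨d, hd⟩ := (g2 (i.w (A.y v))).mp ⟨_, rfl⟩
      refine ⟨d, ?_⟩
      have h4 : f2 *ᵥ d = mY p *ᵥ (f3 *ᵥ x) :=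
        hd.trans ((i.hy' v).trans (congrArg (fun z => mY p *ᵥ z) hv))
      rw [h4, Matrix.mulVec_mulVec]
  · rintro ⟨⟨⟨f1, h1⟩, ⟨f2, h2⟩, ⟨f3, h3⟩⟩, e1, e2, e3⟩
    simp only at e1 e2 e3
    refine ⟨{ V := Fin a → ℂ, W := Fin b → ℂ, U := Fin c → ℂ
              f := Matrix.toLin' (f2ᴴ * (mF p * f1))
              x := Matrix.toLin' (f2ᴴ * (mX p * f3))
              y := Matrix.toLin' (f2ᴴ * (mY p * f3)) },
            { v := Matrix.toLin' f1, w := Matrix.toLin' f2, u := Matrix.toLin' f3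
              hf := ?_, hx := ?_, hy := ?_ }, ⟨frame_inj h1, frame_inj h2, frame_inj h3⟩, ?_⟩
    · show Matrix.toLin' f2 ∘ₗ Matrix.toLin' (f2ᴴ * (mF p * f1)) =
        Matrix.toLin' (mF p) ∘ₗ Matrix.toLin' f1
      rw [← Matrix.toLin'_mul, ← Matrix.toLin'_mul, ← e1]
    · show Matrix.toLin' f2 ∘ₗ Matrix.toLin' (f2ᴴ * (mX p * f3)) =
        Matrix.toLin' (mX p) ∘ₗ Matrix.toLin' f3
      rw [← Matrix.toLin'_mul, ← Matrix.toLin'_mul, ← e2]
    · show Matrix.toLin' f2 ∘ₗ Matrix.toLin' (f2ᴴ * (mY p * f3)) =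
        Matrix.toLin' (mY p) ∘ₗ Matrix.toLin' f3
      rw [← Matrix.toLin'_mul, ← Matrix.toLin'_mul, ← e3]
    · show ((finrank ℂ (Fin a → ℂ) : ℤ), (finrank ℂ (Fin b → ℂ) : ℤ),
        (finrank ℂ (Fin c → ℂ) : ℤ)) = _
      simp

theorem isClosed_hasSub (k w u a b c : ℕ) : IsClosed (HasSub k w u a b c) := by
  have k1 : CompactSpace (Frame k a) := isCompact_iff_compactSpace.mp (isCompact_frame k a)
  have k2 : CompactSpace (Frame w b) := isCompact_iff_compactSpace.mp (isCompact_frame w b)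
  have k3 : CompactSpace (Frame u c) := isCompact_iff_compactSpace.mp (isCompact_frame u c)
  have h : HasSub k w u a b c = Prod.fst '' Good k w u a b c := by
    ext p
    rw [hasSub_iff]
    constructor
    · rintro ⟨φ, h⟩; exact ⟨_, h, rfl⟩
    · rintro ⟨⟨p', φ⟩, h, rfl⟩; exact ⟨φ, h⟩
  rw [h]
  exact isClosedMap_fst_of_compactSpace _ (isClosed_good k w u a b c)

/-- stability in terms of the sets `HasSub` -/
theorem stable_iff {α : ℝ} {k w u : ℕ} (p : Idx k w u → ℂ) :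
    Stable α (ofCoord p) ↔ ((k : ℤ), (w : ℤ), (u : ℤ)) ≠ (0 : Ty) ∧
      ∀ a ≤ k, ∀ b ≤ w, ∀ c ≤ u, ((a : ℤ), (b : ℤ), (c : ℤ)) ≠ (0 : Ty) →
        ((a : ℤ), (b : ℤ), (c : ℤ)) ≠ (((k : ℤ), (w : ℤ), (u : ℤ)) : Ty) →
        0 ≤ cr α ((a : ℤ), (b : ℤ), (c : ℤ)) ((k : ℤ), (w : ℤ), (u : ℤ)) →
        p ∉ HasSub k w u a b c := by
  unfold Stable
  rw [ty_ofCoord]
  refine and_congr_right fun _ => ?_
  constructor
  · intro h a _ b _ c _ h0 h1 hcr hmem
    obtain ⟨A, i, hi, ht⟩ := hmem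
    have := h A i hi (by rw [ht]; exact h0) (by rw [ht]; exact h1)
    rw [ht] at this
    exact absurd hcr (not_le.mpr this)
  · intro h A i hi h0 h1
    by_contra hcon
    rw [not_lt] at hcon
    have hle := hi.tyLE
    rw [ty_ofCoord] at hle
    obtain ⟨l1, l2, l3⟩ := hle
    simp only [QRep.ty, Nat.cast_le] at l1 l2 l3
    exact h _ l1 _ l2 _ l3 h0 h1 hcon ⟨A, i, hi, rfl⟩

theorem isOpen_stable (α : ℝ) (k w u : ℕ) :
    IsOpen {p : Idx k w u → ℂ | Stable α (ofCoord p)} := by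
  have h : {p : Idx k w u → ℂ | Stable α (ofCoord p)} =
      {p | ((k : ℤ), (w : ℤ), (u : ℤ)) ≠ (0 : Ty)} ∩
      ⋂ a ∈ Finset.Iic k, ⋂ b ∈ Finset.Iic w, ⋂ c ∈ Finset.Iic u,
        {p | ((a : ℤ), (b : ℤ), (c : ℤ)) ≠ (0 : Ty) →
        ((a : ℤ), (b : ℤ), (c : ℤ)) ≠ (((k : ℤ), (w : ℤ), (u : ℤ)) : Ty) →
        0 ≤ cr α ((a : ℤ), (b : ℤ), (c : ℤ)) ((k : ℤ), (w : ℤ), (u : ℤ)) →
        p ∉ HasSub k w u a b c} := by
    ext p
    simp only [Set.mem_ofPred_eq, stable_iff, Set.mem_inter_iff, Set.mem_iInter, Finset.mem_Iic]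
  rw [h]
  refine IsOpen.inter isOpen_const ?_
  refine isOpen_biInter_finset fun a _ => isOpen_biInter_finset fun b _ =>
    isOpen_biInter_finset fun c _ => ?_
  by_cases hP : ((a : ℤ), (b : ℤ), (c : ℤ)) ≠ (0 : Ty) ∧
        ((a : ℤ), (b : ℤ), (c : ℤ)) ≠ (((k : ℤ), (w : ℤ), (u : ℤ)) : Ty) ∧
        0 ≤ cr α ((a : ℤ), (b : ℤ), (c : ℤ)) ((k : ℤ), (w : ℤ), (u : ℤ))
  · have : {p : Idx k w u → ℂ | ((a : ℤ), (b : ℤ), (c : ℤ)) ≠ (0 : Ty) →
        ((a : ℤ), (b : ℤ), (c : ℤ)) ≠ (((k : ℤ), (w : ℤ), (u : ℤ)) : Ty) →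
        0 ≤ cr α ((a : ℤ), (b : ℤ), (c : ℤ)) ((k : ℤ), (w : ℤ), (u : ℤ)) →
        p ∉ HasSub k w u a b c} = (HasSub k w u a b c)ᶜ := by
      ext p
      constructor
      · intro h; exact h hP.1 hP.2.1 hP.2.2
      · intro h _ _ _; exact h
    rw [this]
    exact (isClosed_hasSub k w u a b c).isOpen_compl
  · have : {p : Idx k w u → ℂ | ((a : ℤ), (b : ℤ), (c : ℤ)) ≠ (0 : Ty) →
        ((a : ℤ), (b : ℤ), (c : ℤ)) ≠ (((k : ℤ), (w : ℤ), (u : ℤ)) : Ty) →
        0 ≤ cr α ((a : ℤ), (b : ℤ), (c : ℤ)) ((k : ℤ), (w : ℤ), (u : ℤ)) →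
        p ∉ HasSub k w u a b c} = Set.univ := by
      ext p
      simp only [Set.mem_univ, iff_true]
      intro h1 h2 h3
      exact absurd ⟨h1, h2, h3⟩ hP
    rw [this]
    exact isOpen_univ

/-- BLOCK O1: openness of stability and density of algebraically independent points. -/
theorem exists_gen_stable {α : ℝ} {M : QRep} (hM : Stable α M) :
    ∃ (k w u : ℕ) (p : Idx k w u → ℂ), Gen p ∧ (ofCoord p).ty = M.ty ∧ Stable α (ofCoord p) := by
  refine ⟨finrank ℂ M.V, finrank ℂ M.W, finrank ℂ M.U, ?_⟩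
  obtain ⟨p, hp, hg⟩ := exists_algInd_mem (isOpen_stable α _ _ _)
    ⟨coordOf (finBasis ℂ M.V) (finBasis ℂ M.W) (finBasis ℂ M.U) M.f M.x M.y,
      stable_coordOf _ _ _ hM⟩
  exact ⟨p, hg, by rw [ty_ofCoord]; rfl, hp⟩

end CohP1.O1
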