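import Pool.Agent.Lib_helper87.Coh.Defs
import Pool.Agent.Lib_helper34.Coh.O1
import Pool.Agent.Lib_helper34.Coh.Graph

/-!
# Block O2
-/

namespace CohP1.O2

open Module Matrix Topology

/-- the basis of a product -/
noncomputable def pb (a b : ℕ) : Basis (Fin (a + b)) ℂ ((Fin a → ℂ) × (Fin b → ℂ)) :=
  ((Pi.basisFun ℂ (Fin a)).prod (Pi.basisFun ℂ (Fin b))).reindex finSumFinEquiv

variable (k1 k2 w1 w2 u1 u2 : ℕ)

abbrev RS : Type := RepS (Fin k1 → ℂ) (Fin k2 → ℂ) (Fin w1 → ℂ) (Fin w2 → ℂ)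
  (Fin u1 → ℂ) (Fin u2 → ℂ)

/-- the representation with given coordinates -/
noncomputable def theta : (Idx (k1 + k2) (w1 + w2) (u1 + u2) → ℂ) →ₗ[ℂ] RS k1 k2 w1 w2 u1 u2 where
  toFun q := (LinearMap.toContinuousLinearMap (Matrix.toLin (pb k1 k2) (pb w1 w2) (O1.mF q)),
    LinearMap.toContinuousLinearMap (Matrix.toLin (pb u1 u2) (pb w1 w2) (O1.mX q)),
    LinearMap.toContinuousLinearMap (Matrix.toLin (pb u1 u2) (pb w1 w2) (O1.mY q)))
  map_add' p q := by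
    have h1 : O1.mF (p + q) = O1.mF p + O1.mF q := rfl
    have h2 : O1.mX (p + q) = O1.mX p + O1.mX q := rfl
    have h3 : O1.mY (p + q) = O1.mY p + O1.mY q := rfl
    rw [h1, h2, h3]
    simp only [map_add]
    rfl
  map_smul' c q := by
    have h1 : O1.mF (c • q) = c • O1.mF q := rfl
    have h2 : O1.mX (c • q) = c • O1.mX q := rfl
    have h3 : O1.mY (c • q) = c • O1.mY q := rfl
    rw [h1, h2, h3]
    simp only [map_smul, RingHom.id_apply]
    rfl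

theorem theta_continuous : Continuous (theta k1 k2 w1 w2 u1 u2) :=
  LinearMap.continuous_of_finiteDimensional _

theorem toLin_repr {V W : Type} [AddCommGroup V] [AddCommGroup W] [Module ℂ V] [Module ℂ W]
    {k w : ℕ} (bV : Basis (Fin k) ℂ V) (bW : Basis (Fin w) ℂ W) (M : Matrix (Fin w) (Fin k) ℂ)
    (v : V) : M *ᵥ (bV.equivFun v) = bW.equivFun (Matrix.toLin bV bW M v) := by
  have := O1.toLin_apply bV bW (Matrix.toLin bV bW M) v
  rw [LinearMap.toMatrix_toLin] at this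
  exact this

theorem theta_coord (P : RS k1 k2 w1 w2 u1 u2) :
    theta k1 k2 w1 w2 u1 u2 (O1.coordOf (pb k1 k2) (pb w1 w2) (pb u1 u2)
      (P.1 : _ →ₗ[ℂ] _) (P.2.1 : _ →ₗ[ℂ] _) (P.2.2 : _ →ₗ[ℂ] _)) = P := by
  have h1 : O1.mF (O1.coordOf (pb k1 k2) (pb w1 w2) (pb u1 u2)
      (P.1 : _ →ₗ[ℂ] _) (P.2.1 : _ →ₗ[ℂ] _) (P.2.2 : _ →ₗ[ℂ] _)) =
      LinearMap.toMatrix (pb k1 k2) (pb w1 w2) (P.1 : _ →ₗ[ℂ] _) := rfl
  have h2 : O1.mX (O1.coordOf (pb k1 k2) (pb w1 w2) (pb u1 u2)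
      (P.1 : _ →ₗ[ℂ] _) (P.2.1 : _ →ₗ[ℂ] _) (P.2.2 : _ →ₗ[ℂ] _)) =
      LinearMap.toMatrix (pb u1 u2) (pb w1 w2) (P.2.1 : _ →ₗ[ℂ] _) := rfl
  have h3 : O1.mY (O1.coordOf (pb k1 k2) (pb w1 w2) (pb u1 u2)
      (P.1 : _ →ₗ[ℂ] _) (P.2.1 : _ →ₗ[ℂ] _) (P.2.2 : _ →ₗ[ℂ] _)) =
      LinearMap.toMatrix (pb u1 u2) (pb w1 w2) (P.2.2 : _ →ₗ[ℂ] _) := rfl
  show (LinearMap.toContinuousLinearMap (Matrix.toLin (pb k1 k2) (pb w1 w2) (O1.mF _)),
    LinearMap.toContinuousLinearMap (Matrix.toLin (pb u1 u2) (pb w1 w2) (O1.mX _)),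
    LinearMap.toContinuousLinearMap (Matrix.toLin (pb u1 u2) (pb w1 w2) (O1.mY _))) = P
  rw [h1, h2, h3, Matrix.toLin_toMatrix, Matrix.toLin_toMatrix, Matrix.toLin_toMatrix]
  rfl

/-- coordinates of a linear map -/
noncomputable def cl {V W : Type} [AddCommGroup V] [AddCommGroup W] [Module ℂ V] [Module ℂ W]
    {k w : ℕ} (bV : Basis (Fin k) ℂ V) (bW : Basis (Fin w) ℂ W) (f : V →ₗ[ℂ] W) :
    (Fin k → ℂ) →L[ℂ] (Fin w → ℂ) :=
  LinearMap.toContinuousLinearMap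
    (bW.equivFun.toLinearMap ∘ₗ f ∘ₗ bV.equivFun.symm.toLinearMap)

theorem cl_apply {V W : Type} [AddCommGroup V] [AddCommGroup W] [Module ℂ V] [Module ℂ W]
    {k w : ℕ} (bV : Basis (Fin k) ℂ V) (bW : Basis (Fin w) ℂ W) (f : V →ₗ[ℂ] W) (v : Fin k → ℂ) :
    cl bV bW f v = bW.equivFun (f (bV.equivFun.symm v)) := rfl

/-- the other direction -/
noncomputable def dl {V W : Type} [AddCommGroup V] [AddCommGroup W] [Module ℂ V] [Module ℂ W]
    {k w : ℕ} (bV : Basis (Fin k) ℂ V) (bW : Basis (Fin w) ℂ W)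
    (f : (Fin k → ℂ) →L[ℂ] (Fin w → ℂ)) : V →ₗ[ℂ] W :=
  bW.equivFun.symm.toLinearMap ∘ₗ (f : (Fin k → ℂ) →ₗ[ℂ] (Fin w → ℂ)) ∘ₗ bV.equivFun.toLinearMap

theorem dl_apply {V W : Type} [AddCommGroup V] [AddCommGroup W] [Module ℂ V] [Module ℂ W]
    {k w : ℕ} (bV : Basis (Fin k) ℂ V) (bW : Basis (Fin w) ℂ W)
    (f : (Fin k → ℂ) →L[ℂ] (Fin w → ℂ)) (v : V) :
    dl bV bW f v = bW.equivFun.symm (f (bV.equivFun v)) := rfl

/-- BLOCK O2: if `Ext(A,B) = 0`, representations close to `A ⊕ B` have a subrepresentation of the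
type of `A`. -/
theorem exists_gen_sub {A B : QRep} (h : ExtZero A B) :
    ∃ (k w u : ℕ) (p : Idx k w u → ℂ), Gen p ∧ (ofCoord p).ty = A.ty + B.ty ∧
      ∃ (A' : QRep) (i : Hom A' (ofCoord p)), i.Inj ∧ A'.ty = A.ty := by
  have hnh := graph_nhds
    (cl (finBasis ℂ A.V) (finBasis ℂ A.W) A.f)
    (cl (finBasis ℂ A.U) (finBasis ℂ A.W) A.x)
    (cl (finBasis ℂ A.U) (finBasis ℂ A.W) A.y)
    (cl (finBasis ℂ B.V) (finBasis ℂ B.W) B.f)
    (cl (finBasis ℂ B.U) (finBasis ℂ B.W) B.x)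
    (cl (finBasis ℂ B.U) (finBasis ℂ B.W) B.y) (by
      intro c1 c2 c3
      obtain ⟨⟨g1, g2, g3⟩, hg⟩ := h (dl (finBasis ℂ A.V) (finBasis ℂ B.W) c1,
        dl (finBasis ℂ A.U) (finBasis ℂ B.W) c2, dl (finBasis ℂ A.U) (finBasis ℂ B.W) c3)
      have e1 : g2 ∘ₗ A.f - B.f ∘ₗ g1 = dl (finBasis ℂ A.V) (finBasis ℂ B.W) c1 :=
        congrArg Prod.fst hg
      have e2 : g2 ∘ₗ A.x - B.x ∘ₗ g3 = dl (finBasis ℂ A.U) (finBasis ℂ B.W) c2 :=
        congrArg (fun p => p.2.1) hg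
      have e3 : g2 ∘ₗ A.y - B.y ∘ₗ g3 = dl (finBasis ℂ A.U) (finBasis ℂ B.W) c3 :=
        congrArg (fun p => p.2.2) hg
      refine ⟨cl (finBasis ℂ A.V) (finBasis ℂ B.V) g1, cl (finBasis ℂ A.W) (finBasis ℂ B.W) g2,
        cl (finBasis ℂ A.U) (finBasis ℂ B.U) g3, fun v => ?_, fun v => ?_, fun v => ?_⟩
      · have := congrArg (finBasis ℂ B.W).equivFun
          (LinearMap.congr_fun e1 ((finBasis ℂ A.V).equivFun.symm v))
        rw [dl_apply, LinearEquiv.apply_symm_apply, LinearEquiv.apply_symm_apply] at this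
        rw [← this, cl_apply, cl_apply, cl_apply, cl_apply, LinearEquiv.symm_apply_apply,
          LinearEquiv.symm_apply_apply, ← map_sub]
        rfl
      · have := congrArg (finBasis ℂ B.W).equivFun
          (LinearMap.congr_fun e2 ((finBasis ℂ A.U).equivFun.symm v))
        rw [dl_apply, LinearEquiv.apply_symm_apply, LinearEquiv.apply_symm_apply] at this
        rw [← this, cl_apply, cl_apply, cl_apply, cl_apply, LinearEquiv.symm_apply_apply,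
          LinearEquiv.symm_apply_apply, ← map_sub]
        rfl
      · have := congrArg (finBasis ℂ B.W).equivFun
          (LinearMap.congr_fun e3 ((finBasis ℂ A.U).equivFun.symm v))
        rw [dl_apply, LinearEquiv.apply_symm_apply, LinearEquiv.apply_symm_apply] at this
        rw [← this, cl_apply, cl_apply, cl_apply, cl_apply, LinearEquiv.symm_apply_apply,
          LinearEquiv.symm_apply_apply, ← map_sub]
        rfl)
  refine ⟨finrank ℂ A.V + finrank ℂ B.V, finrank ℂ A.W + finrank ℂ B.W,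
    finrank ℂ A.U + finrank ℂ B.U, ?_⟩
  obtain ⟨P0, hP0⟩ : ∃ P0 : RS (finrank ℂ A.V) (finrank ℂ B.V) (finrank ℂ A.W) (finrank ℂ B.W)
      (finrank ℂ A.U) (finrank ℂ B.U), P0 =
      ((cl (finBasis ℂ A.V) (finBasis ℂ A.W) A.f).prodMap
        (cl (finBasis ℂ B.V) (finBasis ℂ B.W) B.f),
      (cl (finBasis ℂ A.U) (finBasis ℂ A.W) A.x).prodMap
        (cl (finBasis ℂ B.U) (finBasis ℂ B.W) B.x),
      (cl (finBasis ℂ A.U) (finBasis ℂ A.W) A.y).prodMap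
        (cl (finBasis ℂ B.U) (finBasis ℂ B.W) B.y)) := ⟨_, rfl⟩
  rw [← hP0, ← theta_coord _ _ _ _ _ _ P0] at hnh
  have hnh2 := (theta_continuous _ _ _ _ _ _).continuousAt.preimage_mem_nhds hnh
  obtain ⟨O, hOsub, hO, hmem⟩ := mem_nhds_iff.mp hnh2
  obtain ⟨q, hqO, hq⟩ := O1.exists_algInd_mem hO ⟨_, hmem⟩
  obtain ⟨sV, sW, sU, g1, g2, g3, h1, h2, h3⟩ := hOsub hqO
  refine ⟨q, hq, ?_, ?_⟩
  · rw [ty_ofCoord]
    simp [QRep.ty]
  · refine ⟨{ V := Fin (finrank ℂ A.V) → ℂ, W := Fin (finrank ℂ A.W) → ℂ,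
              U := Fin (finrank ℂ A.U) → ℂ
              f := (g1 : _ →ₗ[ℂ] _), x := (g2 : _ →ₗ[ℂ] _), y := (g3 : _ →ₗ[ℂ] _) },
            { v := (pb _ _).equivFun.toLinearMap ∘ₗ
                LinearMap.prod LinearMap.id (sV : _ →ₗ[ℂ] _)
              w := (pb _ _).equivFun.toLinearMap ∘ₗ
                LinearMap.prod LinearMap.id (sW : _ →ₗ[ℂ] _)
              u := (pb _ _).equivFun.toLinearMap ∘ₗ
                LinearMap.prod LinearMap.id (sU : _ →ₗ[ℂ] _)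
              hf := LinearMap.ext fun v => ?_
              hx := LinearMap.ext fun v => ?_
              hy := LinearMap.ext fun v => ?_ }, ⟨?_, ?_, ?_⟩, ?_⟩
    · have e := toLin_repr (pb (finrank ℂ A.V) (finrank ℂ B.V))
        (pb (finrank ℂ A.W) (finrank ℂ B.W)) (O1.mF q) (v, sV v)
      exact ((congrArg (pb (finrank ℂ A.W) (finrank ℂ B.W)).equivFun (h1 v)).symm).trans e.symm
    · have e := toLin_repr (pb (finrank ℂ A.U) (finrank ℂ B.U))
        (pb (finrank ℂ A.W) (finrank ℂ B.W)) (O1.mX q) (v, sU v)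
      exact ((congrArg (pb (finrank ℂ A.W) (finrank ℂ B.W)).equivFun (h2 v)).symm).trans e.symm
    · have e := toLin_repr (pb (finrank ℂ A.U) (finrank ℂ B.U))
        (pb (finrank ℂ A.W) (finrank ℂ B.W)) (O1.mY q) (v, sU v)
      exact ((congrArg (pb (finrank ℂ A.W) (finrank ℂ B.W)).equivFun (h3 v)).symm).trans e.symm
    · intro v v' hv
      exact congrArg Prod.fst ((pb _ _).equivFun.injective hv)
    · intro v v' hv
      exact congrArg Prod.fst ((pb _ _).equivFun.injective hv)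
    · intro v v' hv
      exact congrArg Prod.fst ((pb _ _).equivFun.injective hv)
    · show ((finrank ℂ (Fin (finrank ℂ A.V) → ℂ) : ℤ), (finrank ℂ (Fin (finrank ℂ A.W) → ℂ) : ℤ),
        (finrank ℂ (Fin (finrank ℂ A.U) → ℂ) : ℤ)) = _
      simp [QRep.ty]

end CohP1.O2
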